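import Pool.Agent.Helper8.GR.Torus3

/-!
# Short periodic geodesics from an isometric involution with homogeneous fixed point set: the
# relative theorem, and circle invariant metrics on odd-dimensional spheres

`X` is a compact metric space in which any two points are joined by a minimal geodesic and minimal
geodesics between points at distance less than `r` are unique (every closed Riemannian manifold).

Theorem (`Relative`). Let `σ` be an isometric involution of `X`, `F` its fixed point set and `p` in
`F`. Suppose that a group acts on `X` by `lam`-Lipschitz maps commuting with `σ` and that its orbit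
map has a continuous local section over `F` near `p` (`Symmetric`); for example, the group acts by
isometries and is transitive on `F`. Let `q ≥ 1`. Then `X` has a periodic geodesic of length at
most `4 (1 + lam + ... + lam ^ (q - 1)) diam X`, or every map `(I^q, ∂I^q) → (X, F)` can be
deformed into `F` relatively to the boundary.

Its applications to spheres:
1. If `X` is a sphere on which `σ` acts as `(x, y) ↦ (x, -y)`, `x` in `ℝ^(k+1)`, there is a periodic
   geodesic of length at most `4 (1 + lam + ... + lam ^ k) diam X`, whatever the dimension of `X` is.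
2. Every metric on the sphere `S^(2m-1)` in `ℂ^m`, `m ≥ 2`, which is invariant under the circle
   action with the weights `w_1, ..., w_m`, all different from zero and at most one of them even,
   has a periodic geodesic of length at most `8 diam X`.
3. Every metric on `S^3` which is invariant under the circle action with any weights `(p, q)`, not
   both zero, has a periodic geodesic of length at most `8 diam X`.
4. Every metric on `S^(2m-1)` which is invariant under the group of the rotations `z` in `U(1)^m`
   with `∏ z_i ^ (a_i) = 1`, `a` an integer vector, has a periodic geodesic of length at most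
   `8 (m - 1) diam X`, and of length at most `8 diam X` if `∑ a_i` is even or `a_i` and `a_j` are
   not zero for some `i ≠ j`.

Proof idea: if there is no short closed geodesic, the paths from `F` to `p` are contracted by the
shortening of the closed curves symmetric with respect to `σ`, the end point being pushed back to
`p` along `F`. The cube is divided into small cubes, its boundary counts as one vertex, and a
section of the evaluation of the paths starting in `F`, trivial over the boundary, is constructed
from cell to cell. For a circle of fixed points in a simply connected space two steps suffice.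
-/

set_option autoImplicit false

open Set Topology Filter

namespace Pool.Agent.Results.MP_3eff7f_gt.CircleInvariantSpheres

open Pool.Agent.Y489.GE Pool.Agent.R203.IF Pool.Agent.N489.RW Pool.Agent.Helper8.GR

/-- `σ` is an isometric involution of `X` which fixes `p`, the group `G` acts on `X` by
`lam`-Lipschitz maps commuting with `σ`, and the orbit map of `p` has a continuous section over the
fixed points of `σ` near `p` -/
structure Symmetric (X G : Type) [MetricSpace X] [Group G] [TopologicalSpace G] [MulAction G X]
    (σ : X → X) (p : X) (lam : ℝ) : Prop where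
  iso : Isometry σ
  inv : ∀ x, σ (σ x) = x
  fix : σ p = p
  lip : ∀ (g : G) (x y : X), dist (g • x) (g • y) ≤ lam * dist x y
  comm : ∀ (g : G) (x : X), g • σ x = σ (g • x)
  sec : ∃ U ∈ 𝓝 p, ∃ v : X → G, ContinuousOn v (U ∩ {x | σ x = x}) ∧ v p = 1 ∧
    ∀ x ∈ U, σ x = x → v x • p = x

/-- `f` is deformed into the fixed point set of `σ` relatively to the boundary of the cube -/
def Compressible {X : Type} [TopologicalSpace X] (σ : X → X) {q : ℕ}
    (f : (Fin q → unitInterval) → X) : Prop :=
  ∃ H : (Fin q → unitInterval) → ℝ → X,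
    Continuous (fun z : (Fin q → unitInterval) × ℝ => H z.1 z.2) ∧ (∀ k, σ (H k 0) = H k 0) ∧
    (∀ k, H k 1 = f k) ∧ ∀ k ∈ Cube.boundary (Fin q), ∀ s, H k s = f k

/-- the theorem -/
def Relative : Prop := ∀ (X G : Type) [MetricSpace X] [CompactSpace X] [Group G]
  [TopologicalSpace G] [IsTopologicalGroup G] [MulAction G X] [ContinuousSMul G X] (σ : X → X)
  (p : X) (r lam : ℝ), 0 < r → GeodSpace X → UniqGeod X r → Symmetric X G σ p lam →
  ∀ (q : ℕ) (f : (Fin q → unitInterval) → X), 1 ≤ q → Continuous f →
    (∀ k ∈ Cube.boundary (Fin q), σ (f k) = f k) →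
    ClosedGeod X (4 * (∑ i ∈ Finset.range q, lam ^ i) * Metric.diam (univ : Set X)) ∨
      Compressible σ f

/-- the unit sphere of `ℝ^(k+1) × ℝ^(d+1)` -/
abbrev RealSphere (k d : ℕ) : Type :=
  {v : (Fin (k + 1) → ℝ) × (Fin (d + 1) → ℝ) // ∑ i, v.1 i ^ 2 + ∑ i, v.2 i ^ 2 = 1}

/-- `σ` acts on the sphere as `(x, y) ↦ (x, -y)` -/
def Acts {X : Type} [TopologicalSpace X] {k d : ℕ} (e : X ≃ₜ RealSphere k d) (σ : X → X) : Prop :=
  ∀ x, (e (σ x)).1.1 = (e x).1.1 ∧ (e (σ x)).1.2 = -(e x).1.2

/-- application 1. -/
def Spheres : Prop := ∀ (X G : Type) [MetricSpace X] [CompactSpace X] [Group G]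
  [TopologicalSpace G] [IsTopologicalGroup G] [MulAction G X] [ContinuousSMul G X] (σ : X → X)
  (p : X) (r lam : ℝ), 0 < r → GeodSpace X → UniqGeod X r → Symmetric X G σ p lam →
  ∀ (k d : ℕ) (e : X ≃ₜ RealSphere k d), Acts e σ →
    ClosedGeod X (4 * (∑ i ∈ Finset.range (k + 1), lam ^ i) * Metric.diam (univ : Set X))

/-- the unit sphere of `ℂ^m` -/
abbrev Sphere (m : ℕ) : Type := {v : Fin m → ℂ // ∑ i, ‖v i‖ ^ 2 = 1}

/-- the metric of `X` is invariant under the rotation `v ↦ (z_i v_i)` -/
def Invariant {m : ℕ} {X : Type} [MetricSpace X] (e : X ≃ₜ Sphere m) (z : Fin m → Circle) :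
    Prop :=
  ∀ x y x' y' : X, (∀ i, (e x').1 i = z i * (e x).1 i) → (∀ i, (e y').1 i = z i * (e y).1 i) →
    dist x' y' = dist x y

/-- application 2. -/
def Weights : Prop := ∀ (m : ℕ) (w : Fin m → ℤ) (X : Type) [MetricSpace X] [CompactSpace X]
  (e : X ≃ₜ Sphere m) (r : ℝ), 2 ≤ m → 0 < r → GeodSpace X → UniqGeod X r → (∀ i, w i ≠ 0) →
  (∀ i j, Even (w i) → Even (w j) → i = j) → (∀ u : Circle, Invariant e fun i => u ^ w i) →
  ClosedGeod X (8 * Metric.diam (univ : Set X))

/-- application 3. -/
def ThreeSphere : Prop := ∀ (p q : ℤ) (X : Type) [MetricSpace X] [CompactSpace X]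
  (e : X ≃ₜ Sphere 2) (r : ℝ), 0 < r → GeodSpace X → UniqGeod X r → (p ≠ 0 ∨ q ≠ 0) →
  (∀ u : Circle, Invariant e ![u ^ p, u ^ q]) → ClosedGeod X (8 * Metric.diam (univ : Set X))

/-- application 4. -/
def Torus : Prop := ∀ (m : ℕ) (a : Fin m → ℤ) (X : Type) [MetricSpace X] [CompactSpace X]
  (e : X ≃ₜ Sphere m) (r : ℝ), 2 ≤ m → 0 < r → GeodSpace X → UniqGeod X r →
  (∀ z : Fin m → Circle, ∏ i, z i ^ a i = 1 → Invariant e z) →
  ClosedGeod X (8 * ((m : ℝ) - 1) * Metric.diam (univ : Set X)) ∧
    ((Even (∑ i, a i) ∨ ∃ i j, i ≠ j ∧ a i ≠ 0 ∧ a j ≠ 0) →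
      ClosedGeod X (8 * Metric.diam (univ : Set X)))

theorem Symmetric.push {X G : Type} [MetricSpace X] [Group G] [TopologicalSpace G]
    [IsTopologicalGroup G] [MulAction G X] [ContinuousSMul G X] {σ : X → X} {p : X} {lam : ℝ}
    (h : Symmetric X G σ p lam) : PushS X σ p lam :=
  Pool.Agent.R609.IF.t_PGF Pool.Agent.Y911.GE.t_LIFT X G σ p lam
      h.iso.continuous h.fix h.lip h.comm h.sec

/-- the comparison with the sphere of the helper files -/
noncomputable def cmp (k d : ℕ) : RealSphere k d ≃ₜ SW k (Eu d) where
  toFun v := ⟨(WithLp.toLp 2 v.1.1, WithLp.toLp 2 v.1.2), by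
    have h := v.2
    rw [EuclideanSpace.norm_sq_eq, EuclideanSpace.norm_sq_eq]
    simpa using h⟩
  invFun w := ⟨(fun i => w.1.1 i, fun i => w.1.2 i), by
    have h := w.2
    rw [EuclideanSpace.norm_sq_eq, EuclideanSpace.norm_sq_eq] at h
    simpa using h⟩
  left_inv v := rfl
  right_inv w := rfl
  continuous_toFun := by
    refine Continuous.subtype_mk (Continuous.prodMk ?_ ?_) _
    · exact (PiLp.continuous_toLp 2 _).comp (continuous_fst.comp continuous_subtype_val)
    · exact (PiLp.continuous_toLp 2 _).comp (continuous_snd.comp continuous_subtype_val)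
  continuous_invFun := by
    refine Continuous.subtype_mk (Continuous.prodMk ?_ ?_) _
    · refine continuous_pi fun i => ?_
      fun_prop
    · refine continuous_pi fun i => ?_
      fun_prop

theorem result : Relative ∧ Spheres ∧ Weights ∧ ThreeSphere ∧ Torus := by
  refine ⟨?_, ?_, ?_, ?_, ?_⟩
  · intro X G _ _ _ _ _ _ _ σ p r lam hr hX hU h q f hq hf hfF
    by_cases hg : ClosedGeod X (4 * (∑ i ∈ Finset.range q, lam ^ i) *
        Metric.diam (univ : Set X))
    · exact Or.inl hg
    · exact Or.inr (coreR X σ h.iso h.inv p h.fix r lam hr hX hU h.push q hq f hf hfF hg)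
  · intro X G _ _ _ _ _ _ _ σ p r lam hr hX hU h k d e he
    refine sphW k (Eu d) (EuclideanSpace.single 0 1) (by simp) X (e.trans (cmp k d)) σ ?_ h.iso
      p h.fix r lam hr hX hU h.push
    intro x
    obtain ⟨h1, h2⟩ := he x
    refine Prod.ext ?_ ?_
    · show WithLp.toLp 2 (e (σ x)).1.1 = WithLp.toLp 2 (e x).1.1
      rw [h1]
    · show WithLp.toLp 2 (e (σ x)).1.2 = -WithLp.toLp 2 (e x).1.2
      rw [h2]
      rfl
  · intro m w X _ _ e r hm hr hX hU hw hev h
    exact weights hm h hw hev r hr hX hU
  · intro p q X _ _ e r hr hX hU hpq h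
    exact three h hpq r hr hX hU
  · intro m a X _ _ e r hm hr hX hU h
    exact torus hm h r hr hX hU

end Pool.Agent.Results.MP_3eff7f_gt.CircleInvariantSpheres
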