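import Pool.Agent.Helper8.GR.Proj

/-!
# Short periodic geodesics from two isometric involutions which generate a dihedral group, with
# disjoint parts of their fixed point sets

`X` is a compact metric space in which any two points are joined by a minimal geodesic and minimal
geodesics between points at distance less than `r` are unique (every closed Riemannian manifold).

1. Theorem. Let `σ`, `τ` be isometric involutions of `X` with `(τ σ) ^ m = 1`. If they have no common
   fixed point, then `X` has a periodic geodesic of length at most `2 m diam X`. More precisely, if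
   `A` and `B` are disjoint nonempty closed sets which are open in the fixed point sets of `σ` and of
   `τ`, there is a periodic geodesic of length at most `2 m` times the distance of `A` and `B`.
2. The case `σ = τ`, `m = 1`: if the fixed point set of an isometric involution is empty or not
   connected, `X` has a periodic geodesic of length at most `2 diam X`.
3. Application: if the torus `T^n` acts on `X` by isometries with at least two fixed points, and near
   one of them in the standard way on `ℂ^n` (for instance if `X` is a toric or quasitoric manifold of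
   dimension `2 n` with any `T^n`-invariant metric), `X` has a periodic geodesic of length at most
   `2 diam X`.
4. Application: every metric on complex projective space which is invariant under
   `[z_0 : z] ↦ [-z_0 : z]` has a periodic geodesic of length at most `2 diam X`.

Proof idea: a shortest path `c` from `A` to `B`, followed by the images under the dihedral group.
Near the end `a` in `A` the midpoint of the unique minimal geodesic from `c(s)` to `σ c(s)` is fixed
by `σ`, so it is in `A`, and its distance to `b` is at least the length of `c`; hence `c(s)` and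
`σ c(s)` have distance `2 s`.
-/

set_option autoImplicit false

open Set Topology Filter

namespace Pool.Agent.Results.MP_3eff7f_gt.DisconnectedFixedSets

open Pool.Agent.Y489.GE Pool.Agent.Helper8.GR

/-- 1. -/
def Dihedral : Prop := ∀ (X : Type) [MetricSpace X] [CompactSpace X] [Nonempty X] (r : ℝ)
  (σ τ : X ≃ᵢ X) (m : ℕ), 0 < r → GeodSpace X → UniqGeod X r → (∀ x, σ (σ x) = x) →
  (∀ x, τ (τ x) = x) → 1 ≤ m → (τ * σ) ^ m = 1 →
  ((∀ x, σ x = x → τ x ≠ x) → ClosedGeod X (2 * m * Metric.diam (univ : Set X))) ∧
  ∀ A B : Set X, IsClosed A → IsClosed B → A.Nonempty → B.Nonempty → Disjoint A B →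
    (∀ x ∈ A, σ x = x) → (∀ x ∈ B, τ x = x) → IsClosed ({x | σ x = x} \ A) →
    IsClosed ({x | τ x = x} \ B) →
    ∃ a ∈ A, ∃ b ∈ B, (∀ x ∈ A, ∀ y ∈ B, dist a b ≤ dist x y) ∧ ClosedGeod X (2 * m * dist a b)

/-- 2. -/
def Disconnected : Prop := ∀ (X : Type) [MetricSpace X] [CompactSpace X] [Nonempty X] (r : ℝ)
  (σ : X ≃ᵢ X), 0 < r → GeodSpace X → UniqGeod X r → (∀ x, σ (σ x) = x) →
  ¬ IsConnected {x | σ x = x} → ClosedGeod X (2 * Metric.diam (univ : Set X))

/-- 3. -/
def HalfTorus : Prop := ∀ (X : Type) [MetricSpace X] [CompactSpace X] (r : ℝ) (n : ℕ)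
  [MulAction (Fin n → Circle) X] (p p' : X) (U : Set X) (φ : X → Fin n → ℂ), 0 < r →
  GeodSpace X → UniqGeod X r →
  (∀ (t : Fin n → Circle) (x y : X), dist (t • x) (t • y) = dist x y) → p ≠ p' →
  (∀ t : Fin n → Circle, t • p = p) → (∀ t : Fin n → Circle, t • p' = p') → U ∈ 𝓝 p →
  InjOn φ U → (∀ x ∈ U, ∀ t : Fin n → Circle, t • x ∈ U → ∀ i, φ (t • x) i = t i * φ x i) →
  ClosedGeod X (2 * Metric.diam (univ : Set X))

/-- the unit sphere of `ℂ^(n+1)` -/
abbrev Sphere (n : ℕ) : Type := {v : Fin (n + 1) → ℂ // ∑ i, ‖v i‖ ^ 2 = 1}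

/-- 4. `π` is the quotient map of the sphere by the multiplication by complex numbers of absolute
value one -/
def Projective : Prop := ∀ (X : Type) [MetricSpace X] [CompactSpace X] (r : ℝ) (n : ℕ)
  (π : Sphere n → X), 0 < r → GeodSpace X → UniqGeod X r → 1 ≤ n → Continuous π →
  Function.Surjective π → (∀ v w, π v = π w ↔ ∃ u : Circle, ∀ i, w.1 i = u * v.1 i) →
  (∀ v w v' w' : Sphere n, (∀ i, v'.1 i = if i = 0 then -v.1 i else v.1 i) →
    (∀ i, w'.1 i = if i = 0 then -w.1 i else w.1 i) →
    dist (π v') (π w') = dist (π v) (π w)) →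
  ClosedGeod X (2 * Metric.diam (univ : Set X))

theorem result : Dihedral ∧ Disconnected ∧ HalfTorus ∧ Projective := by
  refine ⟨?_, ?_, ?_, ?_⟩
  · intro X _ _ _ r σ τ m hr hX hU hσ hτ hm hστ
    exact ⟨fun hno => dihedral hX hr hU σ τ hσ hτ m hm hστ hno,
      fun A B hA hB hAn hBn hAB hAσ hBτ hA' hB' =>
        pair_diam hX hr hU σ τ hσ hτ m hm hστ A B hA hB hAn hBn hAB hAσ hBτ hA' hB'⟩
  · intro X _ _ _ r σ hr hX hU hσ hF
    exact disconnected hX hr hU σ hσ hF
  · intro X _ _ r n _ p p' U φ hr hX hU hiso hpp hp hp' hUp hφ hφt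
    exact torus_two hX hr hU n hiso p p' hpp hp hp' U hUp φ hφ hφt
  · intro X _ _ r n π hr hX hU hn hπc hπs hπ hinv
    exact proj hX hr hU n hn π hπc hπs hπ fun v w => hinv v w _ _ (fun _ => rfl) fun _ => rfl

end Pool.Agent.Results.MP_3eff7f_gt.DisconnectedFixedSets
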