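import Pool.Agent.Helper60.CP.QMain
import Pool.Agent.Helper60.CP.OMain
import Pool.Agent.Helper60.CP.FS
import Pool.Agent.Helper65.CPR.R
import Pool.Agent.Helper59.CPR.R3
import Pool.Agent.Helper93.CPQ.V3

/-!
# Sharp short periodic geodesics for cohomogeneity one metrics on `ℂP^n`, `ℍP^n` and `𝕆P^2`

`IsProfileC L f h`: `dr² + f(r)² |ν|² + h(r)² g`, `0 ≤ r ≤ L`, is a smooth metric on `𝕂P^n`,
`𝕂 = ℂ, ℍ, 𝕆` (`n = 2` for `𝕆`); here `r` is the distance from a point `o`, `r = L` is a `𝕂P^(n-1)`, the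
spheres `S` in between carry the vertical part `ν` of the Hopf fibration and the pull-back `g` of the
metric of `𝕂P^(n-1)`.  These are the metrics invariant under the isotropy group `K` of `o` in the
compact rank one symmetric space `𝕂P^n`: `K = U(n)`, `Sp(n)Sp(1)`, `Spin(9)`; their volume is
`vol(S) ∫ f^(k-1) h^(kn-k)`, `k = dim 𝕂`.  There is always a periodic geodesic of length at most
`π (vol(M) / vol(𝕂P^n))^(1/kn)`, where `𝕂P^n` carries the symmetric metric of diameter `π / 2`, all of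
whose geodesics have length `π`: the symmetric metric is optimal among all `K`-invariant metrics.
-/

set_option autoImplicit false

open Real Set MeasureTheory
open scoped LinearAlgebra.Projectivization Quaternion

namespace Pool.Agent.Results.MP_3eff7f_gt.ProjectiveSpaces

open Pool.Agent.Helper60.CP

theorem result :
    (∀ (L : ℝ) (f h : ℝ → ℝ), IsProfileC L f h →
      (∀ n : ℕ, 2 ≤ n →
        ∃ (γ : ℝ → ℙ ℂ (ℂ × Cn n)) (T : ℝ), 0 < T ∧ IsGeodesicC L f h 1 γ ∧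
          (∀ t, γ (t + T) = γ t) ∧
          T ^ (2 * n) ≤ 2 * n * π ^ (2 * n) * ∫ r in (0 : ℝ)..L, f r * h r ^ (2 * n - 2)) ∧
      (∀ n : ℕ, 2 ≤ n →
        ∃ (γ : ℝ → ℙ ℍ[ℝ] (ℍ[ℝ] × Hn n)) (T : ℝ), 0 < T ∧ IsGeodesicQ L f h 1 γ ∧
          (∀ t, γ (t + T) = γ t) ∧
          T ^ (4 * n) ≤ 4 * n * (2 * n + 1) * π ^ (4 * n) *
            ∫ r in (0 : ℝ)..L, f r ^ 3 * h r ^ (4 * n - 4)) ∧
      ∃ (γ : ℝ → OP2) (T : ℝ), 0 < T ∧ IsGeodesicO L f h 1 γ ∧ (∀ t, γ (t + T) = γ t) ∧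
        T ^ 16 ≤ 2640 * π ^ 16 * ∫ r in (0 : ℝ)..L, f r ^ 7 * h r ^ 8) ∧
    (IsProfileC (π / 2) (fun r => Real.sin r * Real.cos r) Real.sin ∧
      (∀ n : ℕ, 2 ≤ n →
        (2 * n * π ^ (2 * n) *
            ∫ r in (0 : ℝ)..(π / 2), (Real.sin r * Real.cos r) * Real.sin r ^ (2 * n - 2)) =
          π ^ (2 * n) ∧
        (4 * n * (2 * n + 1) * π ^ (4 * n) *
            ∫ r in (0 : ℝ)..(π / 2), (Real.sin r * Real.cos r) ^ 3 * Real.sin r ^ (4 * n - 4)) =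
          π ^ (4 * n) ∧
        (∀ (γ : ℝ → ℙ ℂ (ℂ × Cn n)) (v T : ℝ), 0 < v → 0 < T →
          IsGeodesicC (π / 2) (fun r => Real.sin r * Real.cos r) Real.sin v γ →
          (∀ t, γ (t + T) = γ t) → π ≤ v * T) ∧
        (∀ (γ : ℝ → ℙ ℍ[ℝ] (ℍ[ℝ] × Hn n)) (v T : ℝ), 0 < v → 0 < T →
          IsGeodesicQ (π / 2) (fun r => Real.sin r * Real.cos r) Real.sin v γ →
          (∀ t, γ (t + T) = γ t) → π ≤ v * T)) ∧
      (2640 * π ^ 16 *
          ∫ r in (0 : ℝ)..(π / 2), (Real.sin r * Real.cos r) ^ 7 * Real.sin r ^ 8) = π ^ 16) :=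
  ⟨fun _ _ _ hf => ⟨fun _ hn => short hf hn,
      fun _ hn => shortQ_of Pool.Agent.Helper93.CPQ.t_3V hf hn, shortO hf⟩,
    profile_FS, fun n hn => ⟨vol_FS n (by omega), vol_FSQ n (by omega), Pool.Agent.Helper65.CPR.t_R n,
      Pool.Agent.Helper59.CPR.t_3R n⟩, vol_FSO⟩

end Pool.Agent.Results.MP_3eff7f_gt.ProjectiveSpaces
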