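import Pool.Agent.Helper60.CP.QMain
import Pool.Agent.Helper60.CP.OMain
import Pool.Agent.Helper60.CP.FS
import Pool.Agent.Helper9ST.R4

/-!
# Sharp short periodic geodesics for `U(n)`-, `Sp(n)Sp(1)`- and `Spin(9)`-invariant metrics on spheres

`IsProfileS L f h`: `dr² + f(r)² |ν|² + h(r)² g`, `0 ≤ r ≤ L`, is a smooth metric on the unit sphere
`S^(kn)` of `𝕂^n × ℝ`, `𝕂 = ℂ, ℍ, 𝕆` (`n = 2` for `𝕆`), `k = dim 𝕂`; here `r` is the distance from the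
north pole, `r = L` is the south pole, the spheres `S^(kn-1)` in between carry the vertical part `ν` of
the Hopf fibration and the pull-back `g` of the metric of `𝕂P^(n-1)`.  These are the metrics invariant
under `U(n)`, `Sp(n)Sp(1)`, `Spin(9)`; their volume is `vol(S^(kn-1)) ∫ f^(k-1) h^(kn-k)`.  There is
always a periodic geodesic of length at most `2π (vol(M) / vol(S^(kn)))^(1/kn)`, `S^(kn)` with the round
metric of curvature one, all of whose periodic geodesics have length at least `2π`; the constant is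
optimal.
-/

set_option autoImplicit false

open Real Set MeasureTheory

namespace Pool.Agent.Results.MP_3eff7f_gt.UnitarySpheres

open Pool.Agent.Helper60.CP

theorem result :
    (∀ (L : ℝ) (f h : ℝ → ℝ), IsProfileS L f h →
      (∀ n : ℕ, 2 ≤ n →
        ∃ (γ : ℝ → Cn n × ℝ) (T : ℝ), 0 < T ∧ IsGeodesicS L f h 1 γ ∧ (∀ t, γ (t + T) = γ t) ∧
          T ^ (2 * n) * (∫ t in (0 : ℝ)..π, Real.sin t ^ (2 * n - 1)) ≤
            (2 * π) ^ (2 * n) * ∫ r in (0 : ℝ)..L, f r * h r ^ (2 * n - 2)) ∧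
      (∀ n : ℕ, 2 ≤ n →
        ∃ (γ : ℝ → Hn n × ℝ) (T : ℝ), 0 < T ∧ IsGeodesicSQ L f h 1 γ ∧ (∀ t, γ (t + T) = γ t) ∧
          T ^ (4 * n) * (∫ t in (0 : ℝ)..π, Real.sin t ^ (4 * n - 1)) ≤
            (2 * π) ^ (4 * n) * ∫ r in (0 : ℝ)..L, f r ^ 3 * h r ^ (4 * n - 4)) ∧
      ∃ (γ : ℝ → Oct2 × ℝ) (T : ℝ), 0 < T ∧ IsGeodesicSO L f h 1 γ ∧ (∀ t, γ (t + T) = γ t) ∧
        T ^ 16 * (∫ t in (0 : ℝ)..π, Real.sin t ^ 15) ≤
          (2 * π) ^ 16 * ∫ r in (0 : ℝ)..L, f r ^ 7 * h r ^ 8) ∧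
    (IsProfileS π Real.sin Real.sin ∧ ∀ v T : ℝ, 0 < v → 0 < T →
      (∀ (n : ℕ) (γ : ℝ → Cn n × ℝ), IsGeodesicS π Real.sin Real.sin v γ →
        (∀ t, γ (t + T) = γ t) → 2 * π ≤ v * T) ∧
      (∀ (n : ℕ) (γ : ℝ → Hn n × ℝ), IsGeodesicSQ π Real.sin Real.sin v γ →
        (∀ t, γ (t + T) = γ t) → 2 * π ≤ v * T) ∧
      (∀ γ : ℝ → Oct2 × ℝ, IsGeodesicSO π Real.sin Real.sin v γ →
        (∀ t, γ (t + T) = γ t) → 2 * π ≤ v * T)) :=
  ⟨fun _ _ _ hf => ⟨fun _ hn => shortS hf hn, fun _ hn => shortSQ hf hn, shortSO hf⟩,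
    profile_round, fun v T hv hT =>
    ⟨fun n γ => round_s n γ v T hv hT, fun n γ => Pool.Agent.Helper9ST.t_4R n γ v T hv hT,
      fun _ => round_so hv hT⟩⟩

end Pool.Agent.Results.MP_3eff7f_gt.UnitarySpheres
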